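import Pool.Agent.Helper54.DT.StmtsS

/-! DCT, module PTSUB: substitution of integer points at the level of symbols. -/

namespace Pool.Agent.Helper71.DCT

open Finset Pool.Agent.Helper54.DT Pool.Agent.Helper54.ETR Pool.Agent.Helper54.Poly

namespace PTSub

abbrev VS := ℕ × List Tok
abbrev CS := List ℕ × List ℕ

/-- numerals -/
def nuK (n : ℕ) : List Tok := List.replicate n Tok.add ++ Tok.zero :: List.replicate n Tok.one

theorem nuK_eq (n : ℕ) : (nuO oT n).toks = nuK n := by
  induction n with
  | zero => rfl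
  | succ n ih =>
    change Tok.add :: ((nuO oT n).toks ++ [Tok.one]) = _
    rw [ih]
    unfold nuK
    rw [List.replicate_succ (n := n) (a := Tok.add), List.replicate_succ' (n := n) (a := Tok.one)]
    simp

/-- symbols of the value of a variable -/
def ptK (c : CS) (i : ℕ) : List Tok := Tok.sub :: (nuK (c.1.count i) ++ nuK (c.2.count i))

theorem ptK_eq (c : CS) (i : ℕ) : (pT c.1 c.2 i).toks = ptK c i := by
  change Tok.sub :: ((nuO oT (c.1.count i)).toks ++ (nuO oT (c.2.count i)).toks) = _
  rw [nuK_eq, nuK_eq]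
  rfl

def sC0 (t : Tok) : VS :=
  match t with
  | Tok.zero => (0, [Tok.zero])
  | Tok.one => (0, [Tok.one])
  | _ => (0, [])

def sC1 (t : Tok) (c : CS) (v : VS) : VS :=
  match t with
  | Tok.s => (v.1 + 1, [])
  | Tok.x => (0, ptK c v.1)
  | _ => (0, [])

def sC2 (t : Tok) (v w : VS) : VS :=
  match t with
  | Tok.add => (0, Tok.add :: (v.2 ++ w.2))
  | Tok.sub => (0, Tok.sub :: (v.2 ++ w.2))
  | Tok.mul => (0, Tok.mul :: (v.2 ++ w.2))
  | _ => (0, [])

def AS : Alg CS VS where
  c0 t _ _ := sC0 t
  c1 t c _ v := sC1 t c v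
  c2 t _ _ v w := sC2 t v w

def semS (c : CS) : Ob → ℕ → VS
  | Ob.num i, _ => (i, [])
  | Ob.tm t, _ => (0, (subst (pT c.1 c.2) t).toks)
  | Ob.fm _, _ => (0, [])

theorem semS_ok (c : CS) : AS.Sem c (semS c) where
  zero _ := rfl
  one _ := rfl
  e _ := rfl
  s _ _ := rfl
  x i k := by
    change ((0, (pT c.1 c.2 i).toks) : VS) = (0, ptK c i)
    rw [ptK_eq]
  not _ _ := rfl
  add _ _ _ := rfl
  sub _ _ _ := rfl
  mul _ _ _ := rfl
  lt _ _ _ := rfl
  le _ _ _ := rfl
  eq _ _ _ := rfl
  ge _ _ _ := rfl
  gt _ _ _ := rfl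
  and _ _ _ := rfl
  or _ _ _ := rfl

section pts

variable {α : Type} [TEnc α]

theorem PTcount {l : α → List ℕ} {i : α → ℕ} (hl : PT l) (hi : PT i) :
    PT (fun a => (l a).count (i a)) := by
  have h1 : PT (fun z : α × ℕ => if decide (z.2 = i z.1) then [()] else ([] : List Unit)) :=
    PT.ite (PT.eqN PT.id.snd (hi.comp PT.id.fst)) (PT.const _) (PT.const _)
  refine (PT.length (PT.flatMap h1 hl)).congr fun a => ?_
  induction l a with
  | nil => rfl
  | cons b l ih =>
    rw [List.flatMap_cons, List.length_append, ih, List.count_cons]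
    by_cases h : b = i a
    · simp [h, add_comm]
    · simp [h]

theorem PTnuK {n : α → ℕ} (hn : PT n) : PT (fun a => nuK (n a)) :=
  PT.append (PT.replicate hn (PT.const _)) (PT.lcons (PT.const _) (PT.replicate hn (PT.const _)))

theorem PTptK {c : α → CS} {i : α → ℕ} (hc : PT c) (hi : PT i) :
    PT (fun a => ptK (c a) (i a)) :=
  PT.lcons (PT.const _) (PT.append (PTnuK (PTcount hc.fst hi)) (PTnuK (PTcount hc.snd hi)))

end pts

theorem AS_pt : AS.IsPT where
  p0 t := PT.const _
  p1 t := by
    have h0 : PT (fun _ : (CS × ℕ) × VS => ((0, []) : VS)) := PT.const _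
    cases t
    case s => exact (PT.succ PT.id.snd.fst).pair (PT.const _)
    case x => exact (PT.const _).pair (PTptK PT.id.fst.fst PT.id.snd.fst)
    all_goals exact h0
  p2 t := by
    have h0 : PT (fun _ : (CS × ℕ) × (VS × VS) => ((0, []) : VS)) := PT.const _
    have h1 : ∀ t : Tok, PT (fun z : (CS × ℕ) × (VS × VS) =>
        ((0, t :: (z.2.1.2 ++ z.2.2.2)) : VS)) := fun t =>
      (PT.const 0).pair (PT.lcons (PT.const t) (PT.append PT.id.snd.fst.snd PT.id.snd.snd.snd))
    cases t
    case add => exact h1 _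
    case sub => exact h1 _
    case mul => exact h1 _
    all_goals exact h0

theorem ptK_length (c : CS) (i : ℕ) : (ptK c i).length ≤ 2 * (c.1.length + c.2.length) + 3 := by
  have h1 := List.count_le_length (a := i) (l := c.1)
  have h2 := List.count_le_length (a := i) (l := c.2)
  simp only [ptK, nuK, List.length_cons, List.length_append, List.length_replicate]
  omega

theorem subst_length (c : CS) (t : Term) : (subst (pT c.1 c.2) t).toks.length ≤
    t.toks.length * (2 * (c.1.length + c.2.length) + 3) := by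
  induction t with
  | zero => simp [subst, Term.toks]
  | one => simp [subst, Term.toks]
  | var i =>
    have h1 := ptK_length c i
    have h2 : 1 ≤ (Term.var i).toks.length := by simp [Term.toks]
    change (pT c.1 c.2 i).toks.length ≤ _
    rw [ptK_eq]
    refine h1.trans ?_
    exact Nat.le_mul_of_pos_left _ (by omega)
  | add a b iha ihb | sub a b iha ihb | mul a b iha ihb =>
    simp only [subst, Term.toks, List.length_cons, List.length_append]
    nlinarith

theorem semS_sz (c : CS) (o : Ob) (k n : ℕ) (h : o.toks.length + k ≤ n)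
    (hc : c.1.length + c.2.length ≤ n) :
    sz (semS c o k) ≤ 18 * (n * (2 * n + 3)) + 2 * n + 3 := by
  cases o with
  | num i =>
    simp only [Ob.toks, List.length_append, List.length_replicate, List.length_cons,
      List.length_nil] at h
    simp only [semS, sz_pair, sz_nil, sz_nat]
    omega
  | tm t =>
    have h1 := sz_toks (subst (pT c.1 c.2) t).toks
    have h2 := subst_length c t
    simp only [Ob.toks] at h
    have h3 : t.toks.length * (2 * (c.1.length + c.2.length) + 3) ≤ n * (2 * n + 3) :=
      Nat.mul_le_mul (by omega) (by omega)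
    simp only [semS, sz_pair, sz_nat]
    omega
  | fm p =>
    simp only [semS, sz_pair, sz_nil, sz_nat]
    omega

/-- the function -/
def sbF (z : List Tok × CS) : List Tok := (topV ((0, []) : VS) (astate AS z.2 z.1)).2

theorem PTsbF : PT sbF := by
  refine (PTtopV _ (PTastate AS_pt (c := fun z : List Tok × CS => z.2)
    (l := fun z : List Tok × CS => z.1) PT.id.snd PT.id.fst semS semS_ok
    (18 * (Polynomial.X * (2 * Polynomial.X + 3)) + 2 * Polynomial.X + 3) ?_)).snd
  intro a o k hk
  have h1 : sz a = sz a.1 + (sz a.2.1 + sz a.2.2 + 1) + 1 := by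
    rw [← sz_pair, ← sz_pair]
  have h2 := length_le_sz a.1
  have h3 := length_le_sz a.2.1
  have h4 := length_le_sz a.2.2
  refine (semS_sz a.2 o k (sz a) (by omega) (by omega)).trans (le_of_eq ?_)
  simp only [Polynomial.eval_add, Polynomial.eval_mul, Polynomial.eval_ofNat, Polynomial.eval_X]

end PTSub

open PTSub in
theorem st_PTSUB : ST_PTSUB := by
  refine ⟨sbF, PTsbF, ?_⟩
  intro t l1 l2
  unfold sbF
  have h := parse_term t [] [] rfl
  rw [List.append_nil] at h
  rw [astate_eq (semS_ok (l1, l2)), h]
  rfl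

end Pool.Agent.Helper71.DCT
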